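import Pool.Agent.Helper20.CP.Spec

/-!
# Part ESS: the essential infimum
-/

set_option autoImplicit false

open MeasureTheory ProbabilityTheory Filter Topology Set
open scoped ENNReal

namespace Pool.Agent.Helper10.CP.ESS

open Pool.Agent.Helper20.CP

theorem main : S_ESS := by
  intro μ _ c lam hc hlam h0 ρ _ h1 h2
  set S : Set ℝ := {x | μ (Iio x) = 0} with hS
  have h0S : (0 : ℝ) ∈ S := h0
  have hlow : ∀ x ∈ S, ∀ y ≤ x, y ∈ S := by
    intro x hx y hy
    exact measure_mono_null (Iio_subset_Iio hy) hx
  have hbdd : BddAbove S := by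
    by_contra hcon
    have hall : ∀ n : ℕ, μ (Iio (n : ℝ)) = 0 := by
      intro n
      rw [not_bddAbove_iff] at hcon
      obtain ⟨y, hy, hny⟩ := hcon n
      exact hlow y hy n hny.le
    have hU : (⋃ n : ℕ, Iio (n : ℝ)) = univ := by
      ext x
      simp only [mem_iUnion, mem_Iio, mem_univ, iff_true]
      exact exists_nat_gt x
    have : μ univ = 0 := by
      rw [← hU]
      exact measure_iUnion_null hall
    simp at this
  set m := sSup S with hm
  have hm0 : 0 ≤ m := le_csSup hbdd h0S
  have hmS : μ (Iio m) = 0 := by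
    have hU : Iio m ⊆ ⋃ n : ℕ, Iio (m - 1 / ((n : ℝ) + 1)) := by
      intro x hx
      rw [mem_Iio] at hx
      obtain ⟨n, hn⟩ := exists_nat_one_div_lt (sub_pos.2 hx)
      rw [mem_iUnion]
      exact ⟨n, by rw [mem_Iio]; linarith⟩
    refine measure_mono_null hU (measure_iUnion_null fun n => ?_)
    have hlt : m - 1 / ((n : ℝ) + 1) < m := by
      have : (0 : ℝ) < 1 / ((n : ℝ) + 1) := by positivity
      linarith
    obtain ⟨y, hy, hyl⟩ := exists_lt_of_lt_csSup ⟨0, h0S⟩ hlt
    exact hlow y hy _ hyl.le
  refine ⟨c + m, by linarith, ?_, ?_, ?_⟩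
  · have e : ρ {p : ℝ × ℝ | p.1 < c + m} = ρ.map Prod.fst (Iio (c + m)) := by
      rw [Measure.map_apply measurable_fst measurableSet_Iio]
      rfl
    rw [e, h1, Measure.map_apply (by fun_prop) measurableSet_Iio]
    refine measure_mono_null ?_ hmS
    intro x hx
    simp only [mem_preimage, mem_Iio] at hx ⊢
    linarith
  · have e : ρ {p : ℝ × ℝ | p.2 < lam * (c + m)} = ρ.map Prod.snd (Iio (lam * (c + m))) := by
      rw [Measure.map_apply measurable_snd measurableSet_Iio]
      rfl
    rw [e, h2, Measure.map_apply (by fun_prop) measurableSet_Iio]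
    refine measure_mono_null ?_ hmS
    intro x hx
    simp only [mem_preimage, mem_Iio] at hx ⊢
    have := lt_of_mul_lt_mul_left hx (by linarith)
    linarith
  · intro η hη
    have e : ρ {p : ℝ × ℝ | p.1 ≤ c + m + η} = ρ.map Prod.fst (Iic (c + m + η)) := by
      rw [Measure.map_apply measurable_fst measurableSet_Iic]
      rfl
    rw [e, h1, Measure.map_apply (by fun_prop) measurableSet_Iic]
    intro hcon
    have : m + η ∈ S := by
      refine measure_mono_null ?_ hcon
      intro x hx
      simp only [mem_preimage, mem_Iic, mem_Iio] at hx ⊢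
      linarith
    have := le_csSup hbdd this
    linarith

end Pool.Agent.Helper10.CP.ESS
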