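import Pool.Agent.Helper20.CP.Spec

/-!
# Part ONE: the total probability is one
-/

set_option autoImplicit false

open MeasureTheory ProbabilityTheory Filter Topology Set
open scoped ENNReal

namespace Pool.Agent.Helper10.CP.ONE

open Pool.Agent.Helper20.CP

theorem even_sum {n : ℕ} (hn : 1 ≤ n) (d : Fin n → ℕ) : Even (∑ v, fixDeg d v) := by
  classical
  by_cases ho : Odd (∑ u, d u)
  · have hlast : ∀ v : Fin n, fixDeg d v = d v + if v = ⟨n - 1, by omega⟩ then 1 else 0 := by
      intro v
      unfold fixDeg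
      by_cases hv : v = ⟨n - 1, by omega⟩
      · have h1 : v.val + 1 = n := by
          rw [hv]
          show n - 1 + 1 = n
          omega
        simp only [h1, ho, and_self, if_true, if_pos hv]
      · have h1 : ¬ (v.val + 1 = n) := by
          intro h
          apply hv
          apply Fin.ext
          show v.val = n - 1
          omega
        simp only [h1, false_and, if_false, if_neg hv, add_zero]
    simp_rw [hlast]
    rw [Finset.sum_add_distrib, Finset.sum_ite_eq' Finset.univ, if_pos (Finset.mem_univ _)]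
    exact ho.add_one
  · have : ∀ v : Fin n, fixDeg d v = d v := by
      intro v
      unfold fixDeg
      simp only [ho, and_false, if_false]
    simp_rw [this]
    exact Nat.not_odd_iff_even.1 ho

theorem main (hC : S_CARD) : S_ONE := by
  classical
  intro ν _ ρ _ n hn
  have hn0 : (n : ℝ≥0∞) ≠ 0 := by
    simp only [ne_eq, Nat.cast_eq_zero]
    omega
  have hnn : ((n : ℝ≥0∞) * n) ≠ 0 := mul_ne_zero hn0 hn0
  have hnt : ((n : ℝ≥0∞) * n) ≠ ⊤ := ENNReal.mul_ne_top (by simp) (by simp)
  unfold Pr
  have key : ∀ d : Fin n → ℕ, avg (fun σ : Equiv.Perm (HE (fixDeg d)) =>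
      (∑ r : Fin n, ∑ b : Fin n, WM ρ {w : Sym2 (HE (fixDeg d)) → ℝ × ℝ | True}) /
        ((n : ℝ≥0∞) * n)) = 1 := by
    intro d
    have h1 : WM ρ {w : Sym2 (HE (fixDeg d)) → ℝ × ℝ | True} = 1 := by
      have : {w : Sym2 (HE (fixDeg d)) → ℝ × ℝ | True} = univ := by ext; simp
      rw [this]
      unfold WM
      exact measure_univ
    have h2 : (∑ r : Fin n, ∑ b : Fin n, WM ρ {w : Sym2 (HE (fixDeg d)) → ℝ × ℝ | True}) /
        ((n : ℝ≥0∞) * n) = 1 := by
      rw [h1]
      simp only [Finset.sum_const, Finset.card_univ, Fintype.card_fin, nsmul_eq_mul, mul_one]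
      exact ENNReal.div_self hnn hnt
    unfold avg
    have h3 : (∑ σ ∈ pairings (HE (fixDeg d)),
        (∑ r : Fin n, ∑ b : Fin n, WM ρ {w : Sym2 (HE (fixDeg d)) → ℝ × ℝ | True}) /
          ((n : ℝ≥0∞) * n)) = ((pairings (HE (fixDeg d))).card : ℝ≥0∞) := by
      rw [h2]
      simp
    rw [h3]
    refine ENNReal.div_self ?_ (by simp)
    have hcard : Even (Finset.univ : Finset (HE (fixDeg d))).card := by
      rw [Finset.card_univ, Fintype.card_sigma]
      simp only [Fintype.card_fin]
      exact even_sum hn d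
    obtain ⟨c1, _, c3⟩ := hC (HE (fixDeg d)) Finset.univ
    rw [← c3, c1 hcard]
    have := Nat.doubleFactorial_pos ((Finset.univ : Finset (HE (fixDeg d))).card - 1)
    simp only [ne_eq, Nat.cast_eq_zero]
    omega
  simp_rw [key]
  simp

end Pool.Agent.Helper10.CP.ONE
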